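import Pool.Agent.ATB.Stmts

/-!
Squad ATB, row FIL: one step of a filtration argument.
-/

set_option autoImplicit false

namespace Pool.Agent.ATB.H51

/-- FIL. -/
theorem fil : Pool.Agent.ATB.FILStmt := by
  classical
  intro K _ M ι _ _ d e C0 C1 C2 Q1 Q2 ε hε hdd h12 he1 he0 hind hex hQ θ hθ hdθ
  obtain ⟨q, hq, w, hw, rfl⟩ := Submodule.mem_sup.1 hθ
  obtain ⟨f, hf, rfl⟩ := (Submodule.mem_iSup_iff_exists_finsupp _ _).1 hw
  have hX : ∀ h, ∃ x ∈ C1 h, e h x = f h := fun h => hf h
  choose X hX1 hX2 using hX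
  have hs : (f.sum fun _ x => x) = ∑ i ∈ f.support, e i (X i) :=
    Finset.sum_congr rfl fun i _ => (hX2 i).symm
  rw [hs] at hdθ ⊢
  have hsm : ∑ i ∈ f.support, e i (d (X i)) ∈ Q2 := by
    have h1 : d (q + ∑ i ∈ f.support, e i (X i)) - d q -
        ∑ i ∈ f.support, (d (e i (X i)) - ε • e i (d (X i))) =
          ε • ∑ i ∈ f.support, e i (d (X i)) := by
      rw [map_add, map_sum, Finset.sum_sub_distrib, ← Finset.smul_sum]
      abel
    have h2 : ε • ∑ i ∈ f.support, e i (d (X i)) ∈ Q2 := by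
      rw [← h1]
      exact Q2.sub_mem (Q2.sub_mem hdθ (hQ q hq))
        (Q2.sum_mem fun i _ => he1 i _ (hX1 i))
    have h3 := Q2.smul_mem ε⁻¹ h2
    rwa [smul_smul, inv_mul_cancel₀ hε, one_smul] at h3
  have hz : ∀ i ∈ f.support, d (X i) = 0 := by
    have h4 := hind (Finsupp.indicator f.support fun i _ => d (X i)) ?_ ?_
    · intro i hi
      have := h4 i
      rwa [Finsupp.indicator_of_mem hi] at this
    · intro i
      by_cases hi : i ∈ f.support
      · rw [Finsupp.indicator_of_mem hi]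
        exact h12 i _ (hX1 i)
      · rw [Finsupp.indicator_of_notMem hi]
        exact (C2 i).zero_mem
    · rw [Finsupp.sum_of_support_subset _ (Finsupp.support_indicator_subset _ _) _
        (fun i _ => map_zero (e i))]
      have : ∑ i ∈ f.support, e i ((Finsupp.indicator f.support fun i _ => d (X i)) i) =
          ∑ i ∈ f.support, e i (d (X i)) :=
        Finset.sum_congr rfl fun i hi => by rw [Finsupp.indicator_of_mem hi]
      rw [this]
      exact hsm
  have hY : ∀ i, ∃ y : M, i ∈ f.support → y ∈ C0 i ∧ d y = X i := by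
    intro i
    by_cases hi : i ∈ f.support
    · obtain ⟨y, hy1, hy2⟩ := hex i (X i) (hX1 i) (hz i hi)
      exact ⟨y, fun _ => ⟨hy1, hy2⟩⟩
    · exact ⟨0, fun h => absurd h hi⟩
  choose Y hY using hY
  refine ⟨q - ε⁻¹ • ∑ i ∈ f.support, (d (e i (Y i)) - ε • e i (d (Y i))), ?_, ?_⟩
  · exact Q1.sub_mem hq (Q1.smul_mem _ (Q1.sum_mem fun i hi => he0 i _ (hY i hi).1))
  · have h5 : ∑ i ∈ f.support, e i (d (Y i)) = ∑ i ∈ f.support, e i (X i) :=
      Finset.sum_congr rfl fun i hi => by rw [(hY i hi).2]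
    rw [Finset.sum_sub_distrib, ← Finset.smul_sum, h5, smul_sub, smul_smul,
      inv_mul_cancel₀ hε, one_smul]
    rw [map_sub, map_sub, map_smul, map_sum, Finset.sum_congr rfl fun i _ => hdd (e i (Y i)),
      Finset.sum_const_zero, smul_zero, map_add]
    abel

end Pool.Agent.ATB.H51
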